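import Mathlib

set_option autoImplicit false

namespace Q116.Trip

open Finset SimpleGraph

variable {V : Type} [Fintype V] [DecidableEq V] (G : SimpleGraph V) [DecidableRel G.Adj]

/-- The number of 3-element vertex sets whose induced subgraph is connected. -/
noncomputable def s3 {V : Type} (G : SimpleGraph V) : ℕ :=
  {S : Finset V | S.card = 3 ∧ (G.induce (S : Set V)).Connected}.ncard

/-- ordered cherries `(v, x, y)` -/
def cher : Finset (V × V × V) :=
  univ.filter (fun t => G.Adj t.1 t.2.1 ∧ G.Adj t.1 t.2.2 ∧ t.2.1 ≠ t.2.2)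

/-- ordered induced cherries `(v, x, y)` -/
def ich : Finset (V × V × V) :=
  univ.filter (fun t => G.Adj t.1 t.2.1 ∧ G.Adj t.1 t.2.2 ∧ t.2.1 ≠ t.2.2 ∧ ¬ G.Adj t.2.1 t.2.2)

theorem mem_s3 (S : Finset V) : (S.card = 3 ∧ (G.induce (S : Set V)).Connected) ↔
    ∃ v x y, G.Adj v x ∧ G.Adj v y ∧ x ≠ y ∧ S = {v, x, y} := by
  constructor
  · rintro ⟨h1, h2⟩
    obtain ⟨a, b, c, hab, hac, hbc, rfl⟩ := Finset.card_eq_three.1 h1
    have key : ∀ z w w' : V, z ≠ w → z ≠ w' → w ≠ w' → ({a, b, c} : Finset V) = {z, w, w'} →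
        G.Adj z w ∨ G.Adj z w' := by
      intro z w w' hzw hzw' hww' hS
      rw [hS] at h2
      have hz : z ∈ (({z, w, w'} : Finset V) : Set V) := by simp
      have hw : w ∈ (({z, w, w'} : Finset V) : Set V) := by simp
      obtain ⟨p⟩ := h2.preconnected ⟨z, hz⟩ ⟨w, hw⟩
      have hne : (⟨z, hz⟩ : (({z, w, w'} : Finset V) : Set V)) ≠ ⟨w, hw⟩ := by
        intro h
        exact hzw (congrArg Subtype.val h)
      cases p with
      | nil => exact absurd rfl hne
      | @cons _ u _ h _ =>
        have h' : G.Adj z u.1 := h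
        have hu := u.2
        simp only [Finset.coe_insert, Finset.coe_singleton, Set.mem_insert_iff,
          Set.mem_singleton_iff] at hu
        rcases hu with hu | hu | hu
        · rw [hu] at h'; exact absurd h' (G.loopless.irrefl _)
        · rw [hu] at h'; exact Or.inl h'
        · rw [hu] at h'; exact Or.inr h'
    have k1 := key a b c hab hac hbc rfl
    have k2 := key b a c hab.symm hbc hac (by rw [Finset.insert_comm])
    have k3 := key c a b hac.symm hbc.symm hab (by
      rw [Finset.insert_comm c a, Finset.pair_comm c b])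
    rcases k1 with k1 | k1
    · rcases k3 with k3 | k3
      · exact ⟨a, b, c, k1, k3.symm, hbc, rfl⟩
      · exact ⟨b, a, c, k1.symm, k3.symm, hac, by rw [Finset.insert_comm]⟩
    · rcases k2 with k2 | k2
      · exact ⟨a, b, c, k2.symm, k1, hbc, rfl⟩
      · exact ⟨c, a, b, k1.symm, k2.symm, hab, by
          rw [Finset.insert_comm c a, Finset.pair_comm c b]⟩
  · rintro ⟨v, x, y, h1, h2, h3, rfl⟩
    refine ⟨?_, ?_⟩
    · rw [Finset.card_eq_three]
      exact ⟨v, x, y, h1.ne, h2.ne, h3, rfl⟩
    · have hv : v ∈ (({v, x, y} : Finset V) : Set V) := by simp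
      rw [SimpleGraph.connected_iff_exists_forall_reachable]
      refine ⟨⟨v, hv⟩, ?_⟩
      rintro ⟨w, hw⟩
      have hw' := hw
      simp only [Finset.coe_insert, Finset.coe_singleton, Set.mem_insert_iff,
        Set.mem_singleton_iff] at hw'
      rcases hw' with rfl | rfl | rfl
      · exact SimpleGraph.Reachable.refl _
      · exact SimpleGraph.Adj.reachable (by simpa using h1)
      · exact SimpleGraph.Adj.reachable (by simpa using h2)

/-- The fibre of `(v,x,y) ↦ {v,x,y}` has total weight six. -/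
theorem fibre (a b c : V) (hab : G.Adj a b) (hac : G.Adj a c) (hbc : b ≠ c) :
    ((cher G).filter (fun t => ({t.1, t.2.1, t.2.2} : Finset V) = {a, b, c})).card +
      2 * ((ich G).filter (fun t => ({t.1, t.2.1, t.2.2} : Finset V) = {a, b, c})).card = 6 := by
  have hab' := hab.ne
  have hac' := hac.ne
  by_cases h : G.Adj b c
  · have h1 : (cher G).filter (fun t => ({t.1, t.2.1, t.2.2} : Finset V) = {a, b, c}) =
        {(a, b, c), (a, c, b), (b, a, c), (b, c, a), (c, a, b), (c, b, a)} := by
      ext ⟨v, x, y⟩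
      simp only [cher, Finset.mem_filter, Finset.mem_univ, true_and, Finset.mem_insert,
        Finset.mem_singleton, Prod.mk.injEq]
      constructor
      · rintro ⟨⟨g1, g2, g3⟩, g4⟩
        have e1 : v ∈ ({a, b, c} : Finset V) := g4 ▸ (by simp)
        have e2 : x ∈ ({a, b, c} : Finset V) := g4 ▸ (by simp)
        have e3 : y ∈ ({a, b, c} : Finset V) := g4 ▸ (by simp)
        have g1' := g1.ne
        have g2' := g2.ne
        simp only [Finset.mem_insert, Finset.mem_singleton] at e1 e2 e3
        rcases e1 with rfl | rfl | rfl <;> rcases e2 with rfl | rfl | rfl <;>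
          rcases e3 with rfl | rfl | rfl <;> simp_all
      · rintro (⟨rfl, rfl, rfl⟩ | ⟨rfl, rfl, rfl⟩ | ⟨rfl, rfl, rfl⟩ | ⟨rfl, rfl, rfl⟩ |
          ⟨rfl, rfl, rfl⟩ | ⟨rfl, rfl, rfl⟩)
        · exact ⟨⟨hab, hac, hbc⟩, rfl⟩
        · exact ⟨⟨hac, hab, hbc.symm⟩, by rw [Finset.pair_comm]⟩
        · exact ⟨⟨hab.symm, h, hac'⟩, by rw [Finset.insert_comm]⟩
        · exact ⟨⟨h, hab.symm, hac'.symm⟩, by
            ext z; simp only [Finset.mem_insert, Finset.mem_singleton]; tauto⟩
        · exact ⟨⟨hac.symm, h.symm, hab'⟩, by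
            ext z; simp only [Finset.mem_insert, Finset.mem_singleton]; tauto⟩
        · exact ⟨⟨h.symm, hac.symm, hab'.symm⟩, by
            ext z; simp only [Finset.mem_insert, Finset.mem_singleton]; tauto⟩
    have h2 : (ich G).filter (fun t => ({t.1, t.2.1, t.2.2} : Finset V) = {a, b, c}) = ∅ := by
      rw [Finset.filter_eq_empty_iff]
      rintro ⟨v, x, y⟩ ht g4
      simp only [ich, Finset.mem_filter, Finset.mem_univ, true_and] at ht
      obtain ⟨g1, g2, g3, g5⟩ := ht
      have e1 : v ∈ ({a, b, c} : Finset V) := g4 ▸ (by simp)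
      have e2 : x ∈ ({a, b, c} : Finset V) := g4 ▸ (by simp)
      have e3 : y ∈ ({a, b, c} : Finset V) := g4 ▸ (by simp)
      have g1' := g1.ne
      have g2' := g2.ne
      have s1 := hab.symm
      have s2 := hac.symm
      have s3 := h.symm
      simp only [Finset.mem_insert, Finset.mem_singleton] at e1 e2 e3
      rcases e1 with rfl | rfl | rfl <;> rcases e2 with rfl | rfl | rfl <;>
          rcases e3 with rfl | rfl | rfl <;> simp_all
    rw [h1, h2]
    rw [Finset.card_insert_of_notMem, Finset.card_insert_of_notMem,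
      Finset.card_insert_of_notMem, Finset.card_insert_of_notMem, Finset.card_insert_of_notMem,
      Finset.card_singleton, Finset.card_empty] <;> simp_all [Ne.symm hbc, Ne.symm hab', Ne.symm hac']
  · have h' : ¬ G.Adj c b := fun g => h g.symm
    have h1 : (cher G).filter (fun t => ({t.1, t.2.1, t.2.2} : Finset V) = {a, b, c}) =
        {(a, b, c), (a, c, b)} := by
      ext ⟨v, x, y⟩
      simp only [cher, Finset.mem_filter, Finset.mem_univ, true_and, Finset.mem_insert,
        Finset.mem_singleton, Prod.mk.injEq]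
      constructor
      · rintro ⟨⟨g1, g2, g3⟩, g4⟩
        have e1 : v ∈ ({a, b, c} : Finset V) := g4 ▸ (by simp)
        have e2 : x ∈ ({a, b, c} : Finset V) := g4 ▸ (by simp)
        have e3 : y ∈ ({a, b, c} : Finset V) := g4 ▸ (by simp)
        have g1' := g1.ne
        have g2' := g2.ne
        simp only [Finset.mem_insert, Finset.mem_singleton] at e1 e2 e3
        rcases e1 with rfl | rfl | rfl <;> rcases e2 with rfl | rfl | rfl <;>
          rcases e3 with rfl | rfl | rfl <;> simp_all
      · rintro (⟨rfl, rfl, rfl⟩ | ⟨rfl, rfl, rfl⟩)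
        · exact ⟨⟨hab, hac, hbc⟩, rfl⟩
        · exact ⟨⟨hac, hab, hbc.symm⟩, by rw [Finset.pair_comm]⟩
    have h2 : (ich G).filter (fun t => ({t.1, t.2.1, t.2.2} : Finset V) = {a, b, c}) =
        {(a, b, c), (a, c, b)} := by
      ext ⟨v, x, y⟩
      simp only [ich, Finset.mem_filter, Finset.mem_univ, true_and, Finset.mem_insert,
        Finset.mem_singleton, Prod.mk.injEq]
      constructor
      · rintro ⟨⟨g1, g2, g3, g5⟩, g4⟩
        have e1 : v ∈ ({a, b, c} : Finset V) := g4 ▸ (by simp)
        have e2 : x ∈ ({a, b, c} : Finset V) := g4 ▸ (by simp)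
        have e3 : y ∈ ({a, b, c} : Finset V) := g4 ▸ (by simp)
        have g1' := g1.ne
        have g2' := g2.ne
        simp only [Finset.mem_insert, Finset.mem_singleton] at e1 e2 e3
        rcases e1 with rfl | rfl | rfl <;> rcases e2 with rfl | rfl | rfl <;>
          rcases e3 with rfl | rfl | rfl <;> simp_all
      · rintro (⟨rfl, rfl, rfl⟩ | ⟨rfl, rfl, rfl⟩)
        · exact ⟨⟨hab, hac, hbc, h⟩, rfl⟩
        · exact ⟨⟨hac, hab, hbc.symm, h'⟩, by rw [Finset.pair_comm]⟩
    rw [h1, h2]
    rw [Finset.card_pair]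
    intro hcon
    simp only [Prod.mk.injEq] at hcon
    exact hbc hcon.2.1

/-- `6 s₃ = #cherries + 2 #induced cherries` (ordered counts). -/
theorem six_s3 : 6 * s3 G = (cher G).card + 2 * (ich G).card := by
  classical
  set 𝒮 : Finset (Finset V) := (cher G).image (fun t => ({t.1, t.2.1, t.2.2} : Finset V)) with h𝒮
  have h1 : s3 G = 𝒮.card := by
    unfold s3
    rw [← Set.ncard_coe_finset]
    congr 1
    ext S
    rw [Set.mem_setOf_eq, mem_s3, h𝒮]
    simp only [Finset.coe_image, Set.mem_image, Finset.mem_coe, cher, Finset.mem_filter,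
      Finset.mem_univ, true_and, Prod.exists]
    constructor
    · rintro ⟨v, x, y, h1, h2, h3, rfl⟩
      exact ⟨v, x, y, ⟨h1, h2, h3⟩, rfl⟩
    · rintro ⟨v, x, y, ⟨h1, h2, h3⟩, rfl⟩
      exact ⟨v, x, y, h1, h2, h3, rfl⟩
  have h2 : (cher G).card = ∑ S ∈ 𝒮, ((cher G).filter
      (fun t => ({t.1, t.2.1, t.2.2} : Finset V) = S)).card :=
    Finset.card_eq_sum_card_fiberwise (fun t ht => Finset.mem_image_of_mem _ ht)
  have h3 : (ich G).card = ∑ S ∈ 𝒮, ((ich G).filter
      (fun t => ({t.1, t.2.1, t.2.2} : Finset V) = S)).card := by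
    apply Finset.card_eq_sum_card_fiberwise
    intro t ht
    apply Finset.mem_image_of_mem
    simp only [ich, cher, Finset.coe_filter, Set.mem_setOf_eq, Finset.mem_univ, true_and,
      Finset.mem_filter] at ht ⊢
    exact ⟨ht.1, ht.2.1, ht.2.2.1⟩
  rw [h1, h2, h3, Finset.mul_sum, ← Finset.sum_add_distrib, mul_comm, Finset.card_eq_sum_ones,
    Finset.sum_mul]
  apply Finset.sum_congr rfl
  intro S hS
  rw [h𝒮, Finset.mem_image] at hS
  obtain ⟨⟨v, x, y⟩, ht, rfl⟩ := hS
  simp only [cher, Finset.mem_filter, Finset.mem_univ, true_and] at ht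
  rw [one_mul]
  exact (fibre G v x y ht.1 ht.2.1 ht.2.2).symm

/-- The number of ordered cherries is `∑ d(d-1)`. -/
theorem card_cher : ((cher G).card : ℤ) = ∑ v, (G.degree v : ℤ) * (G.degree v - 1) := by
  have h1 : (cher G).card = ∑ v, (G.neighborFinset v).offDiag.card := by
    rw [Finset.card_eq_sum_card_fiberwise (f := fun t => t.1) (t := univ)
      (fun _ _ => Finset.mem_coe.2 (Finset.mem_univ _))]
    apply Finset.sum_congr rfl
    intro v _
    apply Finset.card_bij (fun t _ => t.2)
    · rintro ⟨a, x, y⟩ ht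
      simp only [cher, Finset.mem_filter, Finset.mem_univ, true_and] at ht
      obtain ⟨⟨h1, h2, h3⟩, rfl⟩ := ht
      rw [Finset.mem_offDiag]
      exact ⟨by simpa using h1, by simpa using h2, h3⟩
    · rintro ⟨a, x, y⟩ ht ⟨a', x', y'⟩ ht' h
      simp only [cher, Finset.mem_filter, Finset.mem_univ, true_and] at ht ht'
      obtain ⟨_, rfl⟩ := ht
      obtain ⟨_, rfl⟩ := ht'
      simp only at h
      rw [h]
    · rintro ⟨x, y⟩ h
      rw [Finset.mem_offDiag] at h
      refine ⟨(v, x, y), ?_, rfl⟩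
      simp only [cher, Finset.mem_filter, Finset.mem_univ, true_and]
      exact ⟨⟨by simpa using h.1, by simpa using h.2.1, h.2.2⟩, trivial⟩
  rw [h1]
  push_cast
  apply Finset.sum_congr rfl
  intro v _
  rw [Finset.offDiag_card, SimpleGraph.card_neighborFinset_eq_degree]
  rcases Nat.eq_zero_or_pos (G.degree v) with h | h
  · rw [h]; simp
  · rw [Nat.cast_sub (Nat.le_mul_of_pos_left _ h)]
    push_cast; ring

end Q116.Trip
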