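import Pool.Agent.Q116.Trip.Basic

set_option autoImplicit false

namespace Q116.Trip

open Finset SimpleGraph

variable {V : Type} [Fintype V] [DecidableEq V] (G : SimpleGraph V) [DecidableRel G.Adj]

/-- The defect. -/
def defect (p : ℕ) : ℤ :=
  ∑ v, ((G.degree v : ℤ) - p) * ((G.degree v : ℤ) - p - 1) + 2 * (ich G).card

theorem six_s3_eq (p : ℕ) : 6 * (s3 G : ℤ) =
    4 * p * G.edgeFinset.card - Fintype.card V * p * (p + 1) + defect G p := by
  have h1 : (6 * s3 G : ℤ) = (cher G).card + 2 * (ich G).card := by exact_mod_cast six_s3 G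
  rw [h1, card_cher, defect]
  have h2 : ∑ v, (G.degree v : ℤ) = 2 * G.edgeFinset.card := by
    exact_mod_cast G.sum_degrees_eq_twice_card_edges
  have h3 : ∑ v, (G.degree v : ℤ) * (G.degree v - 1) =
      ∑ v, ((G.degree v : ℤ) - p) * ((G.degree v : ℤ) - p - 1) +
        2 * p * ∑ v, (G.degree v : ℤ) - Fintype.card V * p * (p + 1) := by
    rw [Finset.mul_sum, ← Finset.sum_add_distrib]
    have : (Fintype.card V * p * (p + 1) : ℤ) = ∑ _v : V, ((p : ℤ) * (p + 1)) := by
      rw [Finset.sum_const, nsmul_eq_mul, Finset.card_univ]; ring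
    rw [this, ← Finset.sum_sub_distrib]
    apply Finset.sum_congr rfl
    intro v _
    ring
  rw [h3, h2]
  ring

theorem mul_pred_nonneg (x : ℤ) : 0 ≤ x * (x - 1) := by
  rcases le_or_gt x 0 with h | h
  · nlinarith
  · nlinarith

theorem term_nonneg (p : ℕ) (v : V) :
    0 ≤ ((G.degree v : ℤ) - p) * ((G.degree v : ℤ) - p - 1) := mul_pred_nonneg _

theorem mem_ich (v x y : V) : (v, x, y) ∈ ich G ↔
    G.Adj v x ∧ G.Adj v y ∧ x ≠ y ∧ ¬ G.Adj x y := by
  simp [ich]

/-- An induced cherry at `v` forces at least `2 (d(v) - 1)` ordered induced cherries. -/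
theorem ich_card (v u w : V) (h : (v, u, w) ∈ ich G) : 2 * (G.degree v - 1) ≤ (ich G).card := by
  classical
  rw [mem_ich] at h
  obtain ⟨h1, h2, h3, h4⟩ := h
  have h4' : ¬ G.Adj w u := fun g => h4 g.symm
  set D := (univ : Finset Bool) ×ˢ ((G.neighborFinset v).erase u) with hD
  have hcard : D.card = 2 * (G.degree v - 1) := by
    rw [hD, Finset.card_product, Finset.card_erase_of_mem (by simpa using h1),
      SimpleGraph.card_neighborFinset_eq_degree]
    simp
  rw [← hcard]
  let f : Bool × V → V × V × V := fun t =>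
    if G.Adj u t.2 then
      (if G.Adj w t.2 then (if t.1 then (t.2, u, w) else (t.2, w, u))
        else (if t.1 then (v, w, t.2) else (v, t.2, w)))
      else (if t.1 then (v, u, t.2) else (v, t.2, u))
  apply Finset.card_le_card_of_injOn f
  · rintro ⟨b, x⟩ hx
    rw [hD, Finset.mem_coe, Finset.mem_product, Finset.mem_erase,
      SimpleGraph.mem_neighborFinset] at hx
    obtain ⟨_, hxu, hxv⟩ := hx
    simp only at hxu hxv
    rw [Finset.mem_coe]
    simp only [f]
    have hs := hxv.symm
    split_ifs with g1 g2 g3 g3 g3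
    · rw [mem_ich]; exact ⟨g1.symm, g2.symm, h3, h4⟩
    · rw [mem_ich]; exact ⟨g2.symm, g1.symm, h3.symm, h4'⟩
    · rw [mem_ich]
      exact ⟨h2, hxv, fun e => h4 (e ▸ g1), g2⟩
    · rw [mem_ich]
      exact ⟨hxv, h2, fun e => h4 (e ▸ g1), fun g => g2 g.symm⟩
    · rw [mem_ich]
      exact ⟨h1, hxv, fun e => hxu e.symm, g1⟩
    · rw [mem_ich]
      exact ⟨hxv, h1, hxu, fun g => g1 g.symm⟩
  · rintro ⟨b, x⟩ hx ⟨b', x'⟩ hx' hf
    rw [hD, Finset.mem_coe, Finset.mem_product, Finset.mem_erase,
      SimpleGraph.mem_neighborFinset] at hx hx'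
    obtain ⟨_, hxu, hxv⟩ := hx
    obtain ⟨_, hxu', hxv'⟩ := hx'
    simp only at hxu hxv hxu' hxv'
    have e1 := hxv.ne
    have e2 := hxv'.ne
    have e3 : w ≠ u := h3.symm
    simp only [f] at hf
    split_ifs at hf <;> simp_all

/-- A graph with an induced cherry has defect larger than `2p`. -/
theorem defect_of_ich (p : ℕ) (hp : 2 ≤ p) (v u w : V) (h : (v, u, w) ∈ ich G) :
    2 * (p : ℤ) < defect G p := by
  classical
  have hc := ich_card G v u w h
  have h' := h
  rw [mem_ich] at h'
  obtain ⟨h1, h2, h3, h4⟩ := h'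
  have hpz : (2 : ℤ) ≤ p := by exact_mod_cast hp
  have hd2 : 2 ≤ G.degree v := by
    rw [← SimpleGraph.card_neighborFinset_eq_degree]
    have : ({u, w} : Finset V) ⊆ G.neighborFinset v := by
      intro z hz
      rw [Finset.mem_insert, Finset.mem_singleton] at hz
      rcases hz with rfl | rfl <;> simpa
    calc 2 = ({u, w} : Finset V).card := (Finset.card_pair h3).symm
      _ ≤ _ := Finset.card_le_card this
  have hsum1 : ((G.degree v : ℤ) - p) * ((G.degree v : ℤ) - p - 1) ≤
      ∑ z, ((G.degree z : ℤ) - p) * ((G.degree z : ℤ) - p - 1) :=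
    Finset.single_le_sum (f := fun z => ((G.degree z : ℤ) - p) * ((G.degree z : ℤ) - p - 1))
      (fun z _ => term_nonneg G p z) (Finset.mem_univ v)
  have hcz : 2 * ((G.degree v : ℤ) - 1) ≤ (ich G).card := by
    have : ((2 * (G.degree v - 1) : ℕ) : ℤ) ≤ (ich G).card := by exact_mod_cast hc
    rw [Nat.cast_mul, Nat.cast_sub (by omega)] at this
    push_cast at this
    exact this
  unfold defect
  rcases Nat.lt_or_ge 2 (G.degree v) with hd | hd
  · have hdz : (3 : ℤ) ≤ G.degree v := by exact_mod_cast hd
    set d : ℤ := (G.degree v : ℤ)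
    have key : 2 * (p : ℤ) < (d - p) * (d - p - 1) + 4 * (d - 1) := by
      have h5 := mul_pred_nonneg ((p : ℤ) - d - 1)
      rcases le_or_gt 4 (p : ℤ) with g | g
      · nlinarith
      · have : (p : ℤ) = 2 ∨ (p : ℤ) = 3 := by omega
        rcases this with g | g <;> rw [g] <;> nlinarith
    linarith
  · have hdeq : G.degree v = 2 := le_antisymm hd hd2
    have hN : G.neighborFinset v = {u, w} := by
      symm
      apply Finset.eq_of_subset_of_card_le
      · intro z hz
        rw [Finset.mem_insert, Finset.mem_singleton] at hz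
        rcases hz with rfl | rfl <;> simpa
      · rw [SimpleGraph.card_neighborFinset_eq_degree, hdeq, Finset.card_pair h3]
    have hdu : 1 ≤ G.degree u := by
      rw [Nat.one_le_iff_ne_zero, ← Nat.pos_iff_ne_zero, G.degree_pos_iff_exists_adj]
      exact ⟨v, h1.symm⟩
    rcases Nat.lt_or_ge 1 (G.degree u) with hu | hu
    · -- another neighbour of `u`
      have : ∃ x, G.Adj u x ∧ x ≠ v := by
        by_contra hcon
        push Not at hcon
        have : G.neighborFinset u ⊆ {v} := by
          intro z hz
          rw [SimpleGraph.mem_neighborFinset] at hz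
          rw [Finset.mem_singleton]
          exact hcon z hz
        have := Finset.card_le_card this
        rw [SimpleGraph.card_neighborFinset_eq_degree, Finset.card_singleton] at this
        omega
      obtain ⟨x, hx1, hx2⟩ := this
      have hx3 : ¬ G.Adj v x := by
        intro g
        have : x ∈ G.neighborFinset v := by simpa using g
        rw [hN, Finset.mem_insert, Finset.mem_singleton] at this
        rcases this with e | e
        · exact hx1.ne e.symm
        · rw [e] at hx1; exact h4 hx1
      have hsub : ({(v, u, w), (v, w, u), (u, v, x), (u, x, v)} : Finset (V × V × V)) ⊆ ich G := by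
        intro t ht
        simp only [Finset.mem_insert, Finset.mem_singleton] at ht
        rcases ht with rfl | rfl | rfl | rfl
        · exact h
        · rw [mem_ich]; exact ⟨h2, h1, h3.symm, fun g => h4 g.symm⟩
        · rw [mem_ich]; exact ⟨h1.symm, hx1, hx2.symm, hx3⟩
        · rw [mem_ich]; exact ⟨hx1, h1.symm, hx2, fun g => hx3 g.symm⟩
      have hc4 : 4 ≤ (ich G).card := by
        refine le_trans ?_ (Finset.card_le_card hsub)
        have n1 := h1.ne
        have n2 : u ≠ w := h3
        rw [Finset.card_insert_of_notMem, Finset.card_insert_of_notMem,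
          Finset.card_insert_of_notMem, Finset.card_singleton]
        · simp only [Finset.mem_singleton, Prod.mk.injEq, not_and]
          intro _ e; exact absurd e.symm hx2
        · simp only [Finset.mem_insert, Finset.mem_singleton, Prod.mk.injEq, not_or, not_and]
          exact ⟨fun e => absurd e n1, fun e => absurd e n1⟩
        · simp only [Finset.mem_insert, Finset.mem_singleton, Prod.mk.injEq, not_or, not_and]
          exact ⟨fun _ e => absurd e n2, fun e => absurd e n1, fun e => absurd e n1⟩
      have hc4z : (4 : ℤ) ≤ (ich G).card := by exact_mod_cast hc4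
      rw [hdeq] at hsum1
      push_cast at hsum1
      nlinarith [mul_pred_nonneg ((p : ℤ) - 2)]
    · have hdu1 : G.degree u = 1 := le_antisymm hu hdu
      have hne : v ≠ u := h1.ne
      have hsum2 : ((G.degree v : ℤ) - p) * ((G.degree v : ℤ) - p - 1) +
          ((G.degree u : ℤ) - p) * ((G.degree u : ℤ) - p - 1) ≤
          ∑ z, ((G.degree z : ℤ) - p) * ((G.degree z : ℤ) - p - 1) := by
        rw [← Finset.sum_pair (f := fun z => ((G.degree z : ℤ) - p) * ((G.degree z : ℤ) - p - 1))
          hne]
        exact Finset.sum_le_sum_of_subset_of_nonneg (Finset.subset_univ _)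
          (fun z _ _ => term_nonneg G p z)
      rw [hdeq, hdu1] at hsum2
      rw [hdeq] at hcz
      push_cast at hsum2 hcz
      nlinarith

/-- If there is no induced cherry and `n = (p+2)a + (p+1)`, `2e - pn = a(p+2) + 2`, then the
defect is larger than `2p`. -/
theorem defect_of_no_ich (p a : ℕ) (hp : 2 ≤ p) (hich : ich G = ∅)
    (hn : Fintype.card V = (p + 2) * a + (p + 1))
    (he : 2 * G.edgeFinset.card = p * Fintype.card V + a * (p + 2) + 2) :
    2 * (p : ℤ) < defect G p := by
  classical
  by_contra hcon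
  push Not at hcon
  have htr : ∀ v x y, G.Adj v x → G.Adj v y → x ≠ y → G.Adj x y := by
    intro v x y h1 h2 h3
    by_contra h4
    have : (v, x, y) ∈ ich G := by rw [mem_ich]; exact ⟨h1, h2, h3, h4⟩
    rw [hich] at this
    exact absurd this (Finset.notMem_empty _)
  set cl : V → Finset V := fun v => insert v (G.neighborFinset v) with hcl
  have hclcard : ∀ v, (cl v).card = G.degree v + 1 := by
    intro v
    rw [hcl]
    simp only
    rw [Finset.card_insert_of_notMem (by simp), SimpleGraph.card_neighborFinset_eq_degree]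
  have hmemcl : ∀ v w, w ∈ cl v ↔ w = v ∨ G.Adj v w := by
    intro v w
    simp [hcl]
  have hclsub : ∀ v w, w ∈ cl v → cl v ⊆ cl w := by
    intro v w hw x hx
    rw [hmemcl] at hw hx ⊢
    rcases hw with rfl | hw
    · exact hx
    · rcases hx with rfl | hx
      · exact Or.inr hw.symm
      · by_cases e : x = w
        · exact Or.inl e
        · exact Or.inr (htr v w x hw hx (Ne.symm e))
  have hsymm : ∀ v w, w ∈ cl v → v ∈ cl w := by
    intro v w hw
    rw [hmemcl] at hw ⊢
    rcases hw with rfl | hw
    · exact Or.inl rfl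
    · exact Or.inr hw.symm
  have hcleq : ∀ v w, w ∈ cl v → cl w = cl v := fun v w hw =>
    Finset.Subset.antisymm (hclsub w v (hsymm v w hw)) (hclsub v w hw)
  have hdegeq : ∀ v w, w ∈ cl v → G.degree w = G.degree v := by
    intro v w hw
    have h1 := hclcard w
    rw [hcleq v w hw, hclcard v] at h1
    omega
  have hdef : defect G p = ∑ v, ((G.degree v : ℤ) - p) * ((G.degree v : ℤ) - p - 1) := by
    unfold defect
    rw [hich]; simp
  rw [hdef] at hcon
  have hpz : (2 : ℤ) ≤ p := by exact_mod_cast hp
  have hdegsum : ∑ v, ((G.degree v : ℤ) - p) = a * (p + 2) + 2 := by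
    rw [Finset.sum_sub_distrib, Finset.sum_const, nsmul_eq_mul, Finset.card_univ]
    have h2 : ∑ v, (G.degree v : ℤ) = 2 * G.edgeFinset.card := by
      exact_mod_cast G.sum_degrees_eq_twice_card_edges
    have h3 : (2 * G.edgeFinset.card : ℤ) = p * Fintype.card V + a * (p + 2) + 2 := by
      exact_mod_cast he
    rw [h2, h3]; ring
  have hnz : (Fintype.card V : ℤ) = (p + 2) * a + (p + 1) := by exact_mod_cast hn
  by_cases hall : ∀ v, G.degree v = p ∨ G.degree v = p + 1
  · -- all degrees in `{p, p+1}`
    set S := univ.filter (fun v => G.degree v = p + 1) with hS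
    have h1 : (S.card : ℤ) = a * (p + 2) + 2 := by
      rw [← hdegsum]
      have : ∀ v, ((G.degree v : ℤ) - p) = if G.degree v = p + 1 then 1 else 0 := by
        intro v
        rcases hall v with h | h
        · rw [h]; simp
        · rw [h]; simp
      simp_rw [this]
      rw [hS, Finset.card_filter]
      push_cast
      rfl
    have h2 : (p + 2) ∣ S.card := by
      rw [Finset.card_eq_sum_card_fiberwise (f := cl) (t := S.image cl)
        (fun t ht => Finset.mem_image_of_mem _ ht)]
      apply Finset.dvd_sum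
      intro c hc
      rw [Finset.mem_image] at hc
      obtain ⟨v, hv, rfl⟩ := hc
      have h3 : S.filter (fun w => cl w = cl v) = cl v := by
        ext w
        rw [Finset.mem_filter]
        constructor
        · rintro ⟨_, h⟩
          rw [← h, hmemcl]; exact Or.inl rfl
        · intro h
          refine ⟨?_, hcleq v w h⟩
          rw [hS, Finset.mem_filter] at hv ⊢
          exact ⟨Finset.mem_univ _, by rw [hdegeq v w h]; exact hv.2⟩
      rw [h3, hclcard v]
      rw [hS, Finset.mem_filter] at hv
      rw [hv.2]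
    have h3 : S.card = a * (p + 2) + 2 := by exact_mod_cast h1
    rw [h3] at h2
    have h4 : (p + 2) ∣ 2 := (Nat.dvd_add_right (Dvd.intro_left a rfl)).1 h2
    have := Nat.le_of_dvd (by norm_num) h4
    omega
  · push Not at hall
    obtain ⟨v, hv1, hv2⟩ := hall
    have hsplit := Finset.sum_add_sum_compl (cl v)
      (fun z => ((G.degree z : ℤ) - p) * ((G.degree z : ℤ) - p - 1))
    have hsplit2 := Finset.sum_add_sum_compl (cl v) (fun z => ((G.degree z : ℤ) - p))
    have hcl1 : ∑ z ∈ cl v, ((G.degree z : ℤ) - p) * ((G.degree z : ℤ) - p - 1) =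
        ((G.degree v : ℤ) + 1) * (((G.degree v : ℤ) - p) * ((G.degree v : ℤ) - p - 1)) := by
      rw [Finset.sum_congr rfl (fun z hz => by rw [hdegeq v z hz]), Finset.sum_const,
        nsmul_eq_mul, hclcard v]
      push_cast; ring
    have hcl2 : ∑ z ∈ cl v, ((G.degree z : ℤ) - p) =
        ((G.degree v : ℤ) + 1) * ((G.degree v : ℤ) - p) := by
      rw [Finset.sum_congr rfl (fun z hz => by rw [hdegeq v z hz]), Finset.sum_const,
        nsmul_eq_mul, hclcard v]
      push_cast; ring
    have hrest : 0 ≤ ∑ z ∈ (cl v)ᶜ, ((G.degree z : ℤ) - p) * ((G.degree z : ℤ) - p - 1) :=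
      Finset.sum_nonneg fun z _ => term_nonneg G p z
    have hle : ((G.degree v : ℤ) + 1) * (((G.degree v : ℤ) - p) * ((G.degree v : ℤ) - p - 1)) ≤
        2 * p := by linarith
    have hdv : (G.degree v : ℤ) = p - 1 := by
      have e0 : (0 : ℤ) ≤ G.degree v := by positivity
      have e1 : (G.degree v : ℤ) ≠ p := by exact_mod_cast hv1
      have e2 : (G.degree v : ℤ) ≠ p + 1 := by exact_mod_cast hv2
      set d : ℤ := (G.degree v : ℤ)
      rcases lt_or_gt_of_ne e1 with g | g
      · by_contra hne
        have g2 : d ≤ p - 2 := by omega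
        have g3 : (d + 1) * ((p : ℤ) - d) ≥ p := by nlinarith
        have g4 : (3 : ℤ) ≤ p - d + 1 := by linarith
        nlinarith
      · have g2 : (p : ℤ) + 2 ≤ d := by omega
        have g3 : (2 : ℤ) ≤ (d - p) * (d - p - 1) := by nlinarith
        nlinarith
    have hzero : ∑ z ∈ (cl v)ᶜ, ((G.degree z : ℤ) - p) * ((G.degree z : ℤ) - p - 1) = 0 := by
      rw [hdv] at hcl1
      have : (((p : ℤ) - 1) + 1) * ((((p : ℤ) - 1) - p) * (((p : ℤ) - 1) - p - 1)) = 2 * p := by
        ring
      rw [this] at hcl1
      linarith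
    have hz2 := (Finset.sum_eq_zero_iff_of_nonneg (fun z _ => term_nonneg G p z)).1 hzero
    have hle1 : ∑ z ∈ (cl v)ᶜ, ((G.degree z : ℤ) - p) ≤ (cl v)ᶜ.card := by
      rw [Finset.card_eq_sum_ones]
      push_cast
      apply Finset.sum_le_sum
      intro z hz
      have := hz2 z hz
      rcases mul_eq_zero.1 this with g | g <;> linarith
    have hcc : ((cl v)ᶜ.card : ℤ) = Fintype.card V - p := by
      rw [Finset.card_compl, Nat.cast_sub (Finset.card_le_univ _), hclcard v]
      push_cast
      rw [hdv]; ring
    rw [hdegsum] at hsplit2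
    rw [hdv] at hcl2
    have : (((p : ℤ) - 1) + 1) * (((p : ℤ) - 1) - p) = - p := by ring
    rw [this] at hcl2
    rw [hcl2] at hsplit2
    nlinarith

end Q116.Trip
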